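import Mathlib

set_option autoImplicit false

namespace Pool.Agent.LibWidom

open MeasureTheory Real Set Filter Topology

/-- the kernel -/
noncomputable def ker (D x y : ℝ) : ENNReal :=
  if x = y then (⊤ : ENNReal) else ENNReal.ofReal (Real.log (D / |x - y|))

theorem ker_symm (D x y : ℝ) : ker D x y = ker D y x := by
  unfold ker
  by_cases h : x = y
  · simp [h]
  · rw [if_neg h, if_neg (Ne.symm h), abs_sub_comm]

theorem ker_measurable (D : ℝ) : Measurable (fun z : ℝ × ℝ => ker D z.1 z.2) := by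
  unfold ker
  refine Measurable.ite (measurableSet_eq_fun measurable_fst measurable_snd) measurable_const ?_
  fun_prop

theorem ker_meas_right (D x : ℝ) : Measurable (fun y => ker D x y) :=
  (ker_measurable D).comp (by fun_prop : Measurable fun y : ℝ => (x, y))

theorem ker_meas_left (D y : ℝ) : Measurable (fun x => ker D x y) :=
  (ker_measurable D).comp (by fun_prop : Measurable fun x : ℝ => (x, y))

/-- continuity in one variable -/
theorem ker_tendsto (D : ℝ) (hD : 0 < D) (x : ℝ) (u : ℕ → ℝ) (a : ℝ) (hu : Tendsto u atTop (𝓝 a)) :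
    Tendsto (fun n => ker D (u n) x) atTop (𝓝 (ker D a x)) := by
  by_cases hax : a = x
  · subst hax
    have htop : ker D a a = ⊤ := by simp [ker]
    rw [htop, ENNReal.tendsto_nhds_top_iff_nnreal]
    intro M
    -- need eventually M < ker
    have h1 : Tendsto (fun n => |u n - a|) atTop (𝓝 0) := by
      have : Tendsto (fun n => u n - a) atTop (𝓝 (a - a)) := hu.sub_const a
      rw [sub_self] at this
      simpa using this.abs
    have h2 : ∀ᶠ n in atTop, |u n - a| < D * exp (-(M + 1)) := by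
      have hpos : 0 < D * exp (-((M : ℝ) + 1)) := by positivity
      exact h1.eventually_lt_const hpos
    filter_upwards [h2] with n hn
    unfold ker
    split_ifs with h
    · exact ENNReal.coe_lt_top
    · have hpos : 0 < |u n - a| := abs_pos.mpr (sub_ne_zero.mpr h)
      rw [← ENNReal.ofReal_coe_nnreal]
      rw [ENNReal.ofReal_lt_ofReal_iff_of_nonneg (by positivity)]
      have h3 : exp ((M : ℝ) + 1) < D / |u n - a| := by
        rw [lt_div_iff₀ hpos]
        calc exp ((M : ℝ) + 1) * |u n - a| < exp ((M : ℝ) + 1) * (D * exp (-(M + 1))) :=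
              mul_lt_mul_of_pos_left hn (exp_pos _)
          _ = D := by
              rw [mul_comm D, ← mul_assoc, ← Real.exp_add]; simp
      have h4 := Real.log_lt_log (exp_pos _) h3
      rw [Real.log_exp] at h4
      linarith
  · have h1 : ∀ᶠ n in atTop, u n ≠ x := hu.eventually_ne hax
    have h2 : ker D a x = ENNReal.ofReal (Real.log (D / |a - x|)) := by simp [ker, hax]
    rw [h2]
    have h3 : Tendsto (fun n => ENNReal.ofReal (Real.log (D / |u n - x|))) atTop
        (𝓝 (ENNReal.ofReal (Real.log (D / |a - x|)))) := by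
      apply (ENNReal.continuous_ofReal.tendsto _).comp
      apply Tendsto.log
      · apply Tendsto.div tendsto_const_nhds (hu.sub_const x).abs
        exact abs_ne_zero.mpr (sub_ne_zero.mpr hax)
      · have := abs_pos.mpr (sub_ne_zero.mpr hax)
        positivity
    refine h3.congr' ?_
    filter_upwards [h1] with n hn
    simp [ker, hn]

/-- potential -/
noncomputable def pot (D : ℝ) (μ : Measure ℝ) (x : ℝ) : ENNReal := ∫⁻ y, ker D x y ∂μ

/-- energy -/
noncomputable def En (D : ℝ) (μ : Measure ℝ) : ENNReal := ∫⁻ x, ∫⁻ y, ker D x y ∂μ ∂μ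

theorem pot_measurable (D : ℝ) (μ : Measure ℝ) [SFinite μ] : Measurable (pot D μ) :=
  (ker_measurable D).lintegral_prod_right'

theorem isClosed_pot_le (D : ℝ) (hD : 0 < D) (μ : Measure ℝ) (E : ENNReal) :
    IsClosed {a : ℝ | pot D μ a ≤ E} := by
  refine IsSeqClosed.isClosed ?_
  intro u a hu hua
  simp only [Set.mem_ofPred_eq] at hu ⊢
  calc pot D μ a = ∫⁻ y, liminf (fun n => ker D (u n) y) atTop ∂μ := by
        refine lintegral_congr fun y => ?_
        exact (ker_tendsto D hD y u a hua).liminf_eq.symm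
    _ ≤ liminf (fun n => ∫⁻ y, ker D (u n) y ∂μ) atTop :=
        lintegral_liminf_le fun n => ker_meas_right D (u n)
    _ ≤ E := by
        refine liminf_le_of_le (by isBoundedDefault) fun b hb => ?_
        obtain ⟨n, hn⟩ := hb.exists
        exact hn.trans (hu n)

/-- first variation -/
theorem energy_le_setLIntegral (K : Set ℝ) (D : ℝ) (μ : Measure ℝ)
    [IsProbabilityMeasure μ] (hμK : μ Kᶜ = 0) (hfin : En D μ < ⊤)
    (hmin : ∀ ν : Measure ℝ, IsProbabilityMeasure ν → ν Kᶜ = 0 → En D μ ≤ En D ν)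
    (B : Set ℝ) :
    En D μ * μ B ≤ ∫⁻ x in B, pot D μ x ∂μ := by
  by_cases hB0 : μ B = 0
  · rw [hB0, mul_zero]; exact zero_le
  have hBt : μ B ≠ ⊤ := measure_ne_top μ B
  set ν : Measure ℝ := (μ B)⁻¹ • μ.restrict B with hν
  have hνprob : IsProbabilityMeasure ν := by
    constructor
    rw [hν, Measure.smul_apply, Measure.restrict_apply_univ, smul_eq_mul,
      ENNReal.inv_mul_cancel hB0 hBt]
  have hνK : ν Kᶜ = 0 := by
    rw [hν, Measure.smul_apply, smul_eq_mul]
    have : μ.restrict B Kᶜ = 0 := le_antisymm ((Measure.restrict_apply_le _ _).trans hμK.le) zero_le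
    rw [this, mul_zero]
  set E : ENNReal := En D μ with hE
  set W : ENNReal := ∫⁻ x, pot D μ x ∂ν with hW
  set F : ENNReal := En D ν with hF
  have hWeq : W = (μ B)⁻¹ * ∫⁻ x in B, pot D μ x ∂μ := by
    rw [hW, hν, lintegral_smul_measure, smul_eq_mul]
  have hWsymm : ∫⁻ x, pot D ν x ∂μ = W := by
    have : ∫⁻ x, pot D ν x ∂μ = ∫⁻ x, ∫⁻ y, ker D x y ∂ν ∂μ := rfl
    rw [this, lintegral_lintegral_swap (ker_measurable D).aemeasurable]
    refine lintegral_congr fun y => lintegral_congr fun x => ker_symm D x y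
  have hinv : (μ B)⁻¹ ≠ ⊤ := ENNReal.inv_ne_top.mpr hB0
  have hWfin : W ≠ ⊤ := by
    rw [hWeq]
    refine ENNReal.mul_ne_top hinv ?_
    exact ((setLIntegral_le_lintegral _ _).trans_lt hfin).ne
  have hFfin : F ≠ ⊤ := by
    have h1 : ∀ x, pot D ν x = (μ B)⁻¹ * ∫⁻ y in B, ker D x y ∂μ := by
      intro x
      rw [pot, hν, lintegral_smul_measure, smul_eq_mul]
    have h2 : F ≤ (μ B)⁻¹ * ((μ B)⁻¹ * E) := by
      calc F = ∫⁻ x, pot D ν x ∂ν := rfl
        _ = (μ B)⁻¹ * ∫⁻ x in B, pot D ν x ∂μ := by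
            rw [hν, lintegral_smul_measure, smul_eq_mul]
        _ ≤ (μ B)⁻¹ * ∫⁻ x, (μ B)⁻¹ * pot D μ x ∂μ := by
            refine mul_le_mul' le_rfl ?_
            refine (setLIntegral_le_lintegral _ _).trans (lintegral_mono fun x => ?_)
            rw [h1 x]
            gcongr
            exact setLIntegral_le_lintegral _ _
        _ = (μ B)⁻¹ * ((μ B)⁻¹ * E) := by
            rw [lintegral_const_mul' _ _ hinv]; rfl
    exact (h2.trans_lt (ENNReal.mul_lt_top hinv.lt_top (ENNReal.mul_lt_top hinv.lt_top hfin))).ne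
  -- main inequality for t
  have key : ∀ t : ℝ, 0 < t → t < 1 →
      E.toReal ≤ (1 - t) ^ 2 * E.toReal + 2 * t * (1 - t) * W.toReal + t ^ 2 * F.toReal := by
    intro t ht0 ht1
    set α : ENNReal := ENNReal.ofReal (1 - t) with hα
    set β : ENNReal := ENNReal.ofReal t with hβ
    have hαβ : α + β = 1 := by
      rw [hα, hβ, ← ENNReal.ofReal_add (by linarith) ht0.le]; simp
    have hprob : IsProbabilityMeasure (α • μ + β • ν) := by
      constructor
      rw [Measure.add_apply, Measure.smul_apply, Measure.smul_apply, measure_univ, measure_univ,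
        smul_eq_mul, smul_eq_mul, mul_one, mul_one, hαβ]
    have hK0 : (α • μ + β • ν) Kᶜ = 0 := by
      rw [Measure.add_apply, Measure.smul_apply, Measure.smul_apply, hμK, hνK]; simp
    have h1 := hmin _ hprob hK0
    have h2 : En D (α • μ + β • ν) = α * (α * E + β * W) + β * (α * W + β * F) := by
      have hin : ∀ x, ∫⁻ y, ker D x y ∂(α • μ + β • ν) = α * pot D μ x + β * pot D ν x := by
        intro x
        rw [lintegral_add_measure, lintegral_smul_measure, lintegral_smul_measure]
        rfl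
      have hαt : α ≠ ⊤ := ENNReal.ofReal_ne_top
      have hβt : β ≠ ⊤ := ENNReal.ofReal_ne_top
      have hlin : ∀ ρ : Measure ℝ, ∫⁻ x, (α * pot D μ x + β * pot D ν x) ∂ρ =
          α * ∫⁻ x, pot D μ x ∂ρ + β * ∫⁻ x, pot D ν x ∂ρ := by
        intro ρ
        rw [lintegral_add_left ((pot_measurable D μ).const_mul α),
          lintegral_const_mul' _ _ hαt, lintegral_const_mul' _ _ hβt]
      unfold En
      simp_rw [hin]
      rw [lintegral_add_measure, lintegral_smul_measure, lintegral_smul_measure, hlin, hlin,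
        smul_eq_mul, smul_eq_mul, hWsymm]
      rfl
    rw [h2] at h1
    have hEf : E ≠ ⊤ := hfin.ne
    have h3 : (α * (α * E + β * W) + β * (α * W + β * F)) ≠ ⊤ := by
      have hαt : α ≠ ⊤ := ENNReal.ofReal_ne_top
      have hβt : β ≠ ⊤ := ENNReal.ofReal_ne_top
      refine ENNReal.add_ne_top.mpr ⟨ENNReal.mul_ne_top hαt (ENNReal.add_ne_top.mpr
        ⟨ENNReal.mul_ne_top hαt hEf, ENNReal.mul_ne_top hβt hWfin⟩), ENNReal.mul_ne_top hβt
        (ENNReal.add_ne_top.mpr ⟨ENNReal.mul_ne_top hαt hWfin, ENNReal.mul_ne_top hβt hFfin⟩)⟩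
    have h4 := ENNReal.toReal_mono h3 h1
    have hαt : α ≠ ⊤ := ENNReal.ofReal_ne_top
    have hβt : β ≠ ⊤ := ENNReal.ofReal_ne_top
    have hαr : α.toReal = 1 - t := ENNReal.toReal_ofReal (by linarith)
    have hβr : β.toReal = t := ENNReal.toReal_ofReal ht0.le
    rw [ENNReal.toReal_add (ENNReal.mul_ne_top hαt (ENNReal.add_ne_top.mpr
        ⟨ENNReal.mul_ne_top hαt hEf, ENNReal.mul_ne_top hβt hWfin⟩)) (ENNReal.mul_ne_top hβt
        (ENNReal.add_ne_top.mpr ⟨ENNReal.mul_ne_top hαt hWfin, ENNReal.mul_ne_top hβt hFfin⟩)),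
      ENNReal.toReal_mul, ENNReal.toReal_mul, ENNReal.toReal_add
        (ENNReal.mul_ne_top hαt hEf) (ENNReal.mul_ne_top hβt hWfin),
      ENNReal.toReal_add (ENNReal.mul_ne_top hαt hWfin) (ENNReal.mul_ne_top hβt hFfin),
      ENNReal.toReal_mul, ENNReal.toReal_mul, ENNReal.toReal_mul, ENNReal.toReal_mul, hαr, hβr] at h4
    nlinarith [h4]
  -- conclude E ≤ W
  have hEW : E.toReal ≤ W.toReal := by
    have h5 : ∀ t : ℝ, 0 < t → t < 1 →
        2 * E.toReal ≤ 2 * W.toReal + t * (E.toReal + F.toReal) := by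
      intro t ht0 ht1
      have h6 := key t ht0 ht1
      have h7 : t * (2 * E.toReal - t * E.toReal) ≤ t * (2 * (1 - t) * W.toReal + t * F.toReal) := by
        nlinarith [h6]
      have h8 := le_of_mul_le_mul_left h7 ht0
      have h9 : 0 ≤ W.toReal := ENNReal.toReal_nonneg
      nlinarith [h8, h9, ht0.le]
    by_contra hcon
    push Not at hcon
    set δ : ℝ := E.toReal - W.toReal with hδ
    have hδpos : 0 < δ := by linarith
    have hs : 0 ≤ E.toReal + F.toReal := add_nonneg ENNReal.toReal_nonneg ENNReal.toReal_nonneg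
    set t : ℝ := min (1 / 2) (δ / (E.toReal + F.toReal + 1)) with ht
    have ht0 : 0 < t := by
      rw [ht]; exact lt_min (by norm_num) (by positivity)
    have ht1 : t < 1 := lt_of_le_of_lt (min_le_left _ _) (by norm_num)
    have h10 := h5 t ht0 ht1
    have h11 : t * (E.toReal + F.toReal) ≤ δ := by
      have h12 : t ≤ δ / (E.toReal + F.toReal + 1) := min_le_right _ _
      rw [le_div_iff₀ (by positivity)] at h12
      nlinarith [h12, ht0.le]
    linarith
  have hEW' : E ≤ W := (ENNReal.toReal_le_toReal hfin.ne hWfin).mp hEW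
  calc E * μ B ≤ W * μ B := by gcongr
    _ = ∫⁻ x in B, pot D μ x ∂μ := by
        rw [hWeq, mul_comm, ← mul_assoc, ENNReal.mul_inv_cancel hB0 hBt, one_mul]

theorem pot_ae_eq (K : Set ℝ) (D : ℝ) (μ : Measure ℝ)
    [IsProbabilityMeasure μ] (hμK : μ Kᶜ = 0) (hfin : En D μ < ⊤)
    (hmin : ∀ ν : Measure ℝ, IsProbabilityMeasure ν → ν Kᶜ = 0 → En D μ ≤ En D ν) :
    ∀ᵐ x ∂μ, pot D μ x ≤ En D μ := by
  have h1 : (fun _ => En D μ) ≤ᵐ[μ] pot D μ := by
    refine ae_le_of_forall_setLIntegral_le_of_sigmaFinite measurable_const fun s _ _ => ?_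
    rw [setLIntegral_const]
    exact energy_le_setLIntegral K D μ hμK hfin hmin s
  have h2 : (fun _ => En D μ) =ᵐ[μ] pot D μ := by
    refine ae_eq_of_ae_le_of_lintegral_le h1 ?_ (pot_measurable D μ).aemeasurable ?_
    · rw [lintegral_const, measure_univ, mul_one]; exact hfin.ne
    · rw [lintegral_const, measure_univ, mul_one]; rfl
  filter_upwards [h2] with x hx
  exact hx.ge

end Pool.Agent.LibWidom
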