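import Mathlib
import Pool.Agent.LibWidom.Energy

set_option autoImplicit false

namespace Pool.Agent.LibWidom

open MeasureTheory Real Set Filter Topology

/-- convexity of the kernel across a gap -/
theorem ker_convex (D : ℝ) (hD : 0 < D) (α β a x : ℝ) (h1 : α < a) (h2 : a < β)
    (hx : x ≤ α ∨ β ≤ x) :
    ker D a x ≤ ENNReal.ofReal ((β - a) / (β - α)) * ker D α x +
      ENNReal.ofReal ((a - α) / (β - α)) * ker D β x := by
  have hβα : 0 < β - α := by linarith
  have hc1 : 0 < (β - a) / (β - α) := div_pos (by linarith) hβα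
  have hc2 : 0 < (a - α) / (β - α) := div_pos (by linarith) hβα
  have hsum : (β - a) / (β - α) + (a - α) / (β - α) = 1 := by
    field_simp; ring
  by_cases hxα : α = x
  · have : ker D α x = ⊤ := by simp [ker, hxα]
    rw [this, ENNReal.mul_top (by simpa using hc1)]
    simp
  by_cases hxβ : β = x
  · have : ker D β x = ⊤ := by simp [ker, hxβ]
    rw [this, ENNReal.mul_top (by simpa using hc2)]
    simp
  have hax : a ≠ x := by rintro rfl; rcases hx with h | h <;> linarith
  have hpa : 0 < |a - x| := abs_pos.mpr (sub_ne_zero.mpr hax)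
  have hpα : 0 < |α - x| := abs_pos.mpr (sub_ne_zero.mpr hxα)
  have hpβ : 0 < |β - x| := abs_pos.mpr (sub_ne_zero.mpr hxβ)
  have haff : (β - a) / (β - α) * |α - x| + (a - α) / (β - α) * |β - x| = |a - x| := by
    rcases hx with h | h
    · rw [abs_of_nonneg (by linarith : 0 ≤ α - x), abs_of_nonneg (by linarith : 0 ≤ β - x),
        abs_of_nonneg (by linarith : 0 ≤ a - x)]
      field_simp; ring
    · rw [abs_of_nonpos (by linarith : α - x ≤ 0), abs_of_nonpos (by linarith : β - x ≤ 0),
        abs_of_nonpos (by linarith : a - x ≤ 0)]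
      field_simp; ring
  have hconc := strictConcaveOn_log_Ioi.concaveOn.2 (Set.mem_Ioi.mpr hpα) (Set.mem_Ioi.mpr hpβ)
    hc1.le hc2.le hsum
  simp only [smul_eq_mul] at hconc
  rw [haff] at hconc
  have hlog : Real.log (D / |a - x|) ≤ (β - a) / (β - α) * Real.log (D / |α - x|) +
      (a - α) / (β - α) * Real.log (D / |β - x|) := by
    rw [Real.log_div hD.ne' hpa.ne', Real.log_div hD.ne' hpα.ne', Real.log_div hD.ne' hpβ.ne']
    have : Real.log D = ((β - a) / (β - α) + (a - α) / (β - α)) * Real.log D := by
      rw [hsum, one_mul]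
    nlinarith [hconc, this]
  have e1 : ker D a x = ENNReal.ofReal (Real.log (D / |a - x|)) := by simp [ker, hax]
  have e2 : ker D α x = ENNReal.ofReal (Real.log (D / |α - x|)) := by simp [ker, hxα]
  have e3 : ker D β x = ENNReal.ofReal (Real.log (D / |β - x|)) := by simp [ker, hxβ]
  rw [e1, e2, e3, ← ENNReal.ofReal_mul hc1.le, ← ENNReal.ofReal_mul hc2.le]
  exact (ENNReal.ofReal_le_ofReal hlog).trans ENNReal.ofReal_add_le

theorem ker_anti (D : ℝ) (hD : 0 < D) (α a x : ℝ) (hxa : x ≠ a) (h : |α - x| ≤ |a - x|) :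
    ker D a x ≤ ker D α x := by
  by_cases hxα : α = x
  · have : ker D α x = ⊤ := by simp [ker, hxα]
    rw [this]; exact le_top
  have e1 : ker D a x = ENNReal.ofReal (Real.log (D / |a - x|)) := by simp [ker, hxa.symm]
  have e2 : ker D α x = ENNReal.ofReal (Real.log (D / |α - x|)) := by simp [ker, hxα]
  have hpα : 0 < |α - x| := abs_pos.mpr (sub_ne_zero.mpr hxα)
  have hpa : 0 < |a - x| := lt_of_lt_of_le hpα h
  rw [e1, e2]
  apply ENNReal.ofReal_le_ofReal
  apply Real.log_le_log (by positivity)
  exact div_le_div_of_nonneg_left hD.le hpα h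

/-- Frostman on the real line -/
theorem pot_le (K : Set ℝ) (hK : IsCompact K) (D : ℝ) (hD : 0 < D) (μ : Measure ℝ)
    [IsProbabilityMeasure μ] (hμK : μ Kᶜ = 0) (hfin : En D μ < ⊤)
    (hmin : ∀ ν : Measure ℝ, IsProbabilityMeasure ν → ν Kᶜ = 0 → En D μ ≤ En D ν) (a : ℝ) :
    pot D μ a ≤ En D μ := by
  set E := En D μ with hE
  set C : Set ℝ := {a : ℝ | pot D μ a ≤ E} ∩ K with hC
  have hCcl : IsClosed C := (isClosed_pot_le D hD μ E).inter hK.isClosed
  have hCK : C ⊆ K := inter_subset_right
  have hCcpt : IsCompact C := hK.of_isClosed_subset hCcl hCK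
  have hae : ∀ᵐ x ∂μ, x ∈ C := by
    have h1 := pot_ae_eq K D μ hμK hfin hmin
    have h2 : ∀ᵐ x ∂μ, x ∈ K := by
      rw [ae_iff]; exact hμK
    filter_upwards [h1, h2] with x hx1 hx2
    exact ⟨hx1, hx2⟩
  by_cases haC : a ∈ C
  · exact haC.1
  have hL : IsCompact (C ∩ Iic a) := hCcpt.inter_right isClosed_Iic
  have hR : IsCompact (C ∩ Ici a) := hCcpt.inter_right isClosed_Ici
  by_cases hLne : (C ∩ Iic a).Nonempty
  · have hα := hL.sSup_mem hLne
    set α := sSup (C ∩ Iic a) with hαdef
    have hαa : α < a := lt_of_le_of_ne hα.2 (fun h => haC (h ▸ hα.1))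
    have hαmax : ∀ x ∈ C, x ≤ a → x ≤ α := fun x hx hxa =>
      le_csSup hL.bddAbove ⟨hx, hxa⟩
    by_cases hRne : (C ∩ Ici a).Nonempty
    · have hβ := hR.sInf_mem hRne
      set β := sInf (C ∩ Ici a) with hβdef
      have hβa : a < β := lt_of_le_of_ne hβ.2 (fun h => haC (h ▸ hβ.1))
      have hβmin : ∀ x ∈ C, a ≤ x → β ≤ x := fun x hx hxa =>
        csInf_le hR.bddBelow ⟨hx, hxa⟩
      have hβα : 0 < β - α := by linarith
      calc pot D μ a ≤ ∫⁻ x, (ENNReal.ofReal ((β - a) / (β - α)) * ker D α x +
            ENNReal.ofReal ((a - α) / (β - α)) * ker D β x) ∂μ := by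
            refine lintegral_mono_ae ?_
            filter_upwards [hae] with x hx
            refine ker_convex D hD α β a x hαa hβa ?_
            rcases le_total x a with h | h
            · exact Or.inl (hαmax x hx h)
            · exact Or.inr (hβmin x hx h)
        _ = ENNReal.ofReal ((β - a) / (β - α)) * pot D μ α +
            ENNReal.ofReal ((a - α) / (β - α)) * pot D μ β := by
            rw [lintegral_add_left ((ker_meas_right D α).const_mul _),
              lintegral_const_mul' _ _ ENNReal.ofReal_ne_top,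
              lintegral_const_mul' _ _ ENNReal.ofReal_ne_top]
            rfl
        _ ≤ ENNReal.ofReal ((β - a) / (β - α)) * E + ENNReal.ofReal ((a - α) / (β - α)) * E := by
            gcongr
            · exact hα.1.1
            · exact hβ.1.1
        _ = E := by
            rw [← add_mul, ← ENNReal.ofReal_add (div_nonneg (by linarith) hβα.le)
              (div_nonneg (by linarith) hβα.le)]
            have : (β - a) / (β - α) + (a - α) / (β - α) = 1 := by field_simp; ring
            rw [this]; simp
    · calc pot D μ a ≤ ∫⁻ x, ker D α x ∂μ := by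
            refine lintegral_mono_ae ?_
            filter_upwards [hae] with x hx
            have hxa : x < a := by
              by_contra hcon
              exact hRne ⟨x, hx, not_lt.mp hcon⟩
            have hxα := hαmax x hx hxa.le
            refine ker_anti D hD α a x hxa.ne ?_
            rw [abs_of_nonneg (by linarith), abs_of_nonneg (by linarith)]
            linarith
        _ ≤ E := hα.1.1
  · by_cases hRne : (C ∩ Ici a).Nonempty
    · have hβ := hR.sInf_mem hRne
      set β := sInf (C ∩ Ici a) with hβdef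
      have hβa : a < β := lt_of_le_of_ne hβ.2 (fun h => haC (h ▸ hβ.1))
      have hβmin : ∀ x ∈ C, a ≤ x → β ≤ x := fun x hx hxa =>
        csInf_le hR.bddBelow ⟨hx, hxa⟩
      calc pot D μ a ≤ ∫⁻ x, ker D β x ∂μ := by
            refine lintegral_mono_ae ?_
            filter_upwards [hae] with x hx
            have hxa : a < x := by
              by_contra hcon
              exact hLne ⟨x, hx, not_lt.mp hcon⟩
            have hxβ := hβmin x hx hxa.le
            refine ker_anti D hD β a x hxa.ne' ?_
            rw [abs_of_nonpos (by linarith), abs_of_nonpos (by linarith)]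
            linarith
        _ ≤ E := hβ.1.1
    · exfalso
      have : ∀ᵐ x ∂μ, False := by
        filter_upwards [hae] with x hx
        rcases le_total x a with h | h
        · exact hLne ⟨x, hx, h⟩
        · exact hRne ⟨x, hx, h⟩
      rw [Filter.eventually_false_iff_eq_bot, ae_eq_bot] at this
      exact IsProbabilityMeasure.ne_zero μ this

/-- a measure of finite energy has no atoms -/
theorem no_atom (D : ℝ) (μ : Measure ℝ) (E : ENNReal) (hfin : E < ⊤)
    (a : ℝ) (h : pot D μ a ≤ E) : μ {a} = 0 := by
  by_contra hcon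
  have h1 : ∫⁻ y in ({a} : Set ℝ), ker D a y ∂μ ≤ pot D μ a := setLIntegral_le_lintegral _ _
  have h2 : ∫⁻ y in ({a} : Set ℝ), ker D a y ∂μ = ⊤ := by
    rw [setLIntegral_congr_fun (g := fun _ => (⊤ : ENNReal)) (measurableSet_singleton a)
      (fun y hy => by simp at hy; simp [ker, hy]), setLIntegral_const, ENNReal.top_mul hcon]
  rw [h2] at h1
  exact absurd (h1.trans h) (not_le.mpr hfin)

/-- integrability and lower bound for log |x - a| -/
theorem log_integral (K : Set ℝ) (hK : IsCompact K) (D : ℝ) (hD : 0 < D) (μ : Measure ℝ)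
    [IsProbabilityMeasure μ] (hμK : μ Kᶜ = 0) (E : ENNReal) (hfin : E < ⊤)
    (a : ℝ) (h : pot D μ a ≤ E) :
    Integrable (fun x => Real.log |x - a|) μ ∧
      Real.log D - E.toReal ≤ ∫ x, Real.log |x - a| ∂μ := by
  have hK' : ∀ᵐ x ∂μ, x ∈ K := by rw [ae_iff]; exact hμK
  have hne : ∀ᵐ x ∂μ, x ≠ a := by
    rw [ae_iff]; simpa using no_atom D μ E hfin a h
  have hker : ∀ᵐ x ∂μ, ker D a x = ENNReal.ofReal (Real.log (D / |x - a|)) := by
    filter_upwards [hne] with x hx
    simp [ker, hx.symm, abs_sub_comm]
  have hpot : ∫⁻ x, ENNReal.ofReal (Real.log (D / |x - a|)) ∂μ ≤ E := by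
    rw [← lintegral_congr_ae hker]; exact h
  have hmeas : Measurable fun x : ℝ => Real.log (D / |x - a|) := by fun_prop
  -- positive part
  obtain ⟨M, hM⟩ : ∃ M : ℝ, ∀ x ∈ K, -M ≤ Real.log (D / |x - a|) ∨ x = a := by
    obtain ⟨B, hB⟩ := hK.isBounded.exists_norm_le
    refine ⟨Real.log ((|B| + |a| + D) / D), fun x hx => ?_⟩
    by_cases hxa : x = a
    · exact Or.inr hxa
    left
    have h1 : |x| ≤ |B| := (hB x hx).trans (le_abs_self B)
    have h2 : |x - a| ≤ |B| + |a| + D := by
      have := abs_sub x a
      linarith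
    have hpos : 0 < |x - a| := abs_pos.mpr (sub_ne_zero.mpr hxa)
    rw [← Real.log_inv, inv_div]
    apply Real.log_le_log (by positivity)
    exact div_le_div_of_nonneg_left hD.le hpos h2
  have hint1 : Integrable (fun x => Real.log (D / |x - a|)) μ := by
    refine ⟨hmeas.aestronglyMeasurable, ?_⟩
    rw [hasFiniteIntegral_iff_norm]
    calc ∫⁻ x, ENNReal.ofReal ‖Real.log (D / |x - a|)‖ ∂μ
        ≤ ∫⁻ x, (ENNReal.ofReal (Real.log (D / |x - a|)) + ENNReal.ofReal |M|) ∂μ := by
          refine lintegral_mono_ae ?_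
          filter_upwards [hK', hne] with x hx hxa
          have h1 := (hM x hx).resolve_right hxa
          rw [Real.norm_eq_abs]
          rcases le_total 0 (Real.log (D / |x - a|)) with h2 | h2
          · rw [abs_of_nonneg h2]; exact le_self_add
          · rw [abs_of_nonpos h2]
            refine le_trans (ENNReal.ofReal_le_ofReal ?_) le_add_self
            have := le_abs_self M
            linarith
      _ = (∫⁻ x, ENNReal.ofReal (Real.log (D / |x - a|)) ∂μ) + ENNReal.ofReal |M| := by
          rw [lintegral_add_left (by fun_prop)]; simp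
      _ < ⊤ := ENNReal.add_lt_top.mpr ⟨hpot.trans_lt hfin, ENNReal.ofReal_lt_top⟩
  have hlog : ∀ᵐ x ∂μ, Real.log |x - a| = Real.log D - Real.log (D / |x - a|) := by
    filter_upwards [hne] with x hx
    rw [Real.log_div hD.ne' (abs_ne_zero.mpr (sub_ne_zero.mpr hx))]; ring
  have hint2 : Integrable (fun x => Real.log D - Real.log (D / |x - a|)) μ :=
    (integrable_const _).sub hint1
  refine ⟨hint2.congr (by filter_upwards [hlog] with x hx; exact hx.symm), ?_⟩
  rw [integral_congr_ae hlog, integral_sub (integrable_const _) hint1]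
  simp only [integral_const, probReal_univ, smul_eq_mul, one_mul]
  have h3 : ∫ x, Real.log (D / |x - a|) ∂μ ≤ E.toReal := by
    have h4 : ∫ x, Real.log (D / |x - a|) ∂μ ≤ ∫ x, max (Real.log (D / |x - a|)) 0 ∂μ :=
      integral_mono hint1 hint1.pos_part fun x => le_max_left _ _
    refine h4.trans ?_
    rw [integral_eq_lintegral_of_nonneg_ae (f := fun x => max (Real.log (D / |x - a|)) 0)
      (Eventually.of_forall fun x => le_max_right _ _)
      (hmeas.max measurable_const).aestronglyMeasurable]
    apply ENNReal.toReal_mono hfin.ne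
    refine le_trans (le_of_eq ?_) hpot
    refine lintegral_congr fun x => ?_
    rcases le_total 0 (Real.log (D / |x - a|)) with h5 | h5
    · rw [max_eq_left h5]
    · rw [max_eq_right h5, ENNReal.ofReal_of_nonpos h5, ENNReal.ofReal_zero]
  linarith

end Pool.Agent.LibWidom
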