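import Mathlib
import Pool.Agent.LibWidom.Frostman

set_option autoImplicit false

namespace Pool.Agent.LibWidom

open MeasureTheory Real Set Filter Topology

/-- Green function of the complement of `[-1,1]`, restricted to the line -/
noncomputable def G (y : ℝ) : ℝ := arcosh (max 1 |y|)

theorem G_nonneg (y : ℝ) : 0 ≤ G y := arcosh_nonneg (le_max_left _ _)

theorem G_continuous : Continuous G := by
  unfold G
  refine continuousOn_arcosh.comp_continuous (by fun_prop) fun y => ?_
  exact (le_max_left (1 : ℝ) |y|)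

theorem log_T_le (m : ℕ) (y : ℝ) :
    Real.log |(Polynomial.Chebyshev.T ℝ m).eval y| ≤ m * G y := by
  rcases le_or_gt |y| 1 with h | h
  · have h1 : |(Polynomial.Chebyshev.T ℝ m).eval y| ≤ 1 :=
      Polynomial.Chebyshev.abs_eval_T_real_le_one m h
    have h2 : Real.log |(Polynomial.Chebyshev.T ℝ m).eval y| ≤ 0 :=
      Real.log_nonpos (abs_nonneg _) h1
    have h3 := G_nonneg y
    exact h2.trans (by positivity)
  · have hG : G y = arcosh |y| := by unfold G; rw [max_eq_right h.le]
    have habs : |(Polynomial.Chebyshev.T ℝ m).eval y| =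
        abs ((Polynomial.Chebyshev.T ℝ m).eval (abs y)) := by
      rcases abs_choice y with h1 | h1
      · rw [h1]
      · rw [h1, Polynomial.Chebyshev.T_eval_neg, abs_mul]
        have : |(((m : ℤ).negOnePow : ℤˣ) : ℝ)| = 1 := by
          rcases Int.even_or_odd (m : ℤ) with he | ho
          · rw [Int.negOnePow_even _ he]; simp
          · rw [Int.negOnePow_odd _ ho]; simp
        rw [this, one_mul]
    have hc : (Polynomial.Chebyshev.T ℝ m).eval (abs y) = cosh (m * arcosh |y|) := by
      conv_lhs => rw [← cosh_arcosh h.le]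
      rw [Polynomial.Chebyshev.T_real_cosh]; simp
    rw [habs, hc, hG, abs_of_pos (cosh_pos _)]
    have hx : 0 ≤ m * arcosh |y| := mul_nonneg (Nat.cast_nonneg m) (arcosh_nonneg h.le)
    rw [Real.log_le_iff_le_exp (cosh_pos _), Real.cosh_eq]
    have : exp (-(m * arcosh |y|)) ≤ exp (m * arcosh |y|) := Real.exp_le_exp.mpr (by linarith)
    linarith

/-- a real polynomial is bounded below by the product over the real parts of its roots -/
theorem exists_real_roots (R : Polynomial ℝ) :
    ∃ a : Fin R.natDegree → ℝ, ∀ x : ℝ, |R.leadingCoeff| * ∏ i, |x - a i| ≤ |R.eval x| := by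
  set S : Polynomial ℂ := R.map (algebraMap ℝ ℂ) with hS
  have hdeg : S.natDegree = R.natDegree := Polynomial.natDegree_map _
  have hcard : Multiset.card S.roots = R.natDegree := by
    rw [← hdeg]; exact (IsAlgClosed.card_roots_eq_natDegree (p := S))
  have hlead : S.leadingCoeff = (R.leadingCoeff : ℂ) := Polynomial.leadingCoeff_map _
  set l : List ℂ := S.roots.toList with hl
  have hlen : l.length = R.natDegree := by rw [hl, Multiset.length_toList, hcard]
  refine ⟨fun i => (l.get (i.cast hlen.symm)).re, fun x => ?_⟩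
  have h1 : S.eval (x : ℂ) = ((R.eval x : ℝ) : ℂ) := by
    rw [hS, Polynomial.eval_map]
    exact Polynomial.eval₂_at_apply (algebraMap ℝ ℂ) x
  have h2 : S.eval (x : ℂ) = S.leadingCoeff * (l.map (fun a => (x : ℂ) - a)).prod := by
    have hsplit := (IsAlgClosed.splits S).eq_prod_roots
    conv_lhs => rw [hsplit]
    rw [Polynomial.eval_mul, Polynomial.eval_C, Polynomial.eval_multiset_prod, Multiset.map_map]
    rw [← Multiset.coe_toList S.roots, Multiset.map_coe, Multiset.prod_coe]
    simp [hl]
  have h3 : |R.eval x| = |R.leadingCoeff| * ∏ i : Fin l.length, ‖(x : ℂ) - l.get i‖ := by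
    have : ‖S.eval (x : ℂ)‖ = |R.eval x| := by rw [h1, Complex.norm_real, Real.norm_eq_abs]
    rw [← this, h2, hlead, norm_mul, Complex.norm_real, Real.norm_eq_abs,
      ← Fin.prod_univ_fun_getElem l (fun a => (x : ℂ) - a), norm_prod]
    simp
  rw [h3]
  refine mul_le_mul_of_nonneg_left ?_ (abs_nonneg _)
  rw [← Equiv.prod_comp (finCongr hlen.symm) (fun i : Fin l.length => ‖(x : ℂ) - l.get i‖)]
  refine Finset.prod_le_prod (fun _ _ => abs_nonneg _) fun i _ => ?_
  have := Complex.abs_re_le_norm ((x : ℂ) - l.get (i.cast hlen.symm))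
  simpa using this

/-- Integrated lower bound for the Green function -/
theorem integral_G_ge (K : Set ℝ) (hK : IsCompact K) (D : ℝ) (hD : 0 < D) (μ : Measure ℝ)
    [IsProbabilityMeasure μ] (hμK : μ Kᶜ = 0) (E : ENNReal) (hfin : E < ⊤)
    (h : ∀ a, pot D μ a ≤ E) (P : Polynomial ℝ) (hP : P.Monic) (n : ℕ) (hn : 1 ≤ n)
    (hPn : P.natDegree = n) (s : ℝ) (hs : 0 < s) :
    Integrable (fun x => G (P.eval x / s)) μ ∧
    n * (Real.log D - E.toReal) - Real.log s + Real.log 2 ≤ ∫ x, G (P.eval x / s) ∂μ := by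
  have hK' : ∀ᵐ x ∂μ, x ∈ K := by rw [ae_iff]; exact hμK
  have hGc : Continuous fun x => G (P.eval x / s) := G_continuous.comp (by fun_prop)
  have hint : Integrable (fun x => G (P.eval x / s)) μ := by
    have h1 : IntegrableOn (fun x => G (P.eval x / s)) K μ := hGc.continuousOn.integrableOn_compact hK
    rwa [IntegrableOn, Measure.restrict_eq_self_of_ae_mem hK'] at h1
  refine ⟨hint, ?_⟩
  set ℓ : ℝ := Real.log D - E.toReal with hℓ
  have key : ∀ m : ℕ, 1 ≤ m →
      n * ℓ - Real.log s + Real.log 2 ≤ (∫ x, G (P.eval x / s) ∂μ) + Real.log 2 / m := by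
    intro m hm
    have hmpos : (0 : ℝ) < m := by exact_mod_cast hm
    set R : Polynomial ℝ := (Polynomial.Chebyshev.T ℝ m).comp (Polynomial.C s⁻¹ * P) with hR
    have hdeg1 : (Polynomial.C s⁻¹ * P).natDegree = n := by
      rw [Polynomial.natDegree_C_mul (inv_ne_zero hs.ne'), hPn]
    have hlead1 : (Polynomial.C s⁻¹ * P).leadingCoeff = s⁻¹ := by
      rw [Polynomial.leadingCoeff_mul, Polynomial.leadingCoeff_C, hP, mul_one]
    have hRdeg : R.natDegree = m * n := by
      rw [hR, Polynomial.natDegree_comp, hdeg1, Polynomial.Chebyshev.natDegree_T]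
      simp
    have hRlead : R.leadingCoeff = 2 ^ (m - 1) * s⁻¹ ^ m := by
      rw [hR, Polynomial.leadingCoeff_comp (by rw [hdeg1]; omega), hlead1,
        Polynomial.Chebyshev.leadingCoeff_T, Polynomial.Chebyshev.natDegree_T]
      simp
    have hReval : ∀ x, R.eval x = (Polynomial.Chebyshev.T ℝ m).eval (P.eval x / s) := by
      intro x
      rw [hR, Polynomial.eval_comp, Polynomial.eval_mul, Polynomial.eval_C, div_eq_inv_mul]
    obtain ⟨a, ha⟩ := exists_real_roots R
    have hleadpos : 0 < |R.leadingCoeff| := by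
      rw [hRlead]; positivity
    have hI : ∀ i, Integrable (fun x => Real.log |x - a i|) μ ∧
        ℓ ≤ ∫ x, Real.log |x - a i| ∂μ := fun i =>
      log_integral K hK D hD μ hμK E hfin (a i) (h (a i))
    have hne : ∀ᵐ x ∂μ, ∀ i, x ≠ a i := by
      rw [ae_all_iff]
      intro i
      rw [ae_iff]; simpa using no_atom D μ E hfin (a i) (h (a i))
    have hpt : ∀ᵐ x ∂μ, Real.log |R.leadingCoeff| + ∑ i, Real.log |x - a i|
        ≤ m * G (P.eval x / s) := by
      filter_upwards [hne] with x hx
      have hx' : ∀ i ∈ Finset.univ, |x - a i| ≠ 0 := fun i _ => abs_ne_zero.mpr (sub_ne_zero.mpr (hx i))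
      rw [← Real.log_prod hx', ← Real.log_mul hleadpos.ne' (Finset.prod_ne_zero_iff.mpr hx')]
      refine le_trans ?_ (log_T_le m (P.eval x / s))
      rw [← hReval]
      refine Real.log_le_log ?_ (ha x)
      exact mul_pos hleadpos (Finset.prod_pos fun i hi => (abs_nonneg _).lt_of_ne' (hx' i hi))
    have hint2 : Integrable (fun x => Real.log |R.leadingCoeff| + ∑ i, Real.log |x - a i|) μ :=
      (integrable_const _).add (integrable_finsetSum _ fun i _ => (hI i).1)
    have h1 := integral_mono_ae hint2 (hint.const_mul (m : ℝ)) hpt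
    rw [integral_add (integrable_const _) (integrable_finsetSum _ fun i _ => (hI i).1),
      integral_finsetSum _ (fun i _ => (hI i).1), integral_const_mul] at h1
    simp only [integral_const, probReal_univ, smul_eq_mul, one_mul] at h1
    have h2 : (m * n : ℕ) * ℓ ≤ ∑ i, ∫ x, Real.log |x - a i| ∂μ := by
      calc ((m * n : ℕ) : ℝ) * ℓ = ∑ _i : Fin R.natDegree, ℓ := by
            rw [Finset.sum_const, Finset.card_univ, Fintype.card_fin, hRdeg, nsmul_eq_mul]
        _ ≤ _ := Finset.sum_le_sum fun i _ => (hI i).2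
    have h3 : Real.log |R.leadingCoeff| = (m - 1) * Real.log 2 - m * Real.log s := by
      rw [hRlead, abs_of_pos (by positivity), Real.log_mul (by positivity) (by positivity),
        Real.log_pow, Real.log_pow, Real.log_inv]
      rw [Nat.cast_sub hm]; push_cast; ring
    rw [h3] at h1
    push_cast at h2
    have h4 : m * (n * ℓ - Real.log s + Real.log 2) ≤
        m * ((∫ x, G (P.eval x / s) ∂μ) + Real.log 2 / m) := by
      rw [mul_add (m : ℝ) _ (Real.log 2 / m), mul_div_cancel₀ _ hmpos.ne']
      nlinarith [h1, h2]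
    exact le_of_mul_le_mul_left h4 hmpos
  have hlim : Tendsto (fun m : ℕ => (∫ x, G (P.eval x / s) ∂μ) + Real.log 2 / m) atTop
      (𝓝 ((∫ x, G (P.eval x / s) ∂μ) + 0)) :=
    tendsto_const_nhds.add (tendsto_const_div_atTop_nhds_zero_nat _)
  rw [add_zero] at hlim
  refine ge_of_tendsto hlim ?_
  filter_upwards [eventually_ge_atTop 1] with m hm
  exact key m hm

end Pool.Agent.LibWidom
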