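import Mathlib
import Pool.Agent.LibWidom.Green

set_option autoImplicit false

namespace Pool.Agent.LibWidom

open MeasureTheory Real Set Filter Topology

theorem arcosh_le_sqrt {y : ℝ} (hy : 1 ≤ y) : arcosh y ≤ √(2 * y) := by
  apply Real.le_sqrt_of_sq_le
  set x := arcosh y with hx
  have hx0 : 0 ≤ x := arcosh_nonneg hy
  have h1 : cosh x = y := cosh_arcosh hy
  have h2 : cosh x = 1 + 2 * sinh (x / 2) ^ 2 := by
    have := Real.cosh_two_mul (x / 2)
    rw [Real.cosh_sq, mul_div_cancel₀ _ (two_ne_zero)] at this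
    linarith
  have h3 : x / 2 ≤ sinh (x / 2) := Real.self_le_sinh_iff.mpr (by positivity)
  have h4 : (x / 2) ^ 2 ≤ sinh (x / 2) ^ 2 := pow_le_pow_left₀ (by positivity) h3 2
  nlinarith [h1, h2, h4]

/-- Beta integral on the open interval -/
theorem beta_half (q : ℝ) (hq : 0 < q) :
    IntegrableOn (fun u : ℝ => u ^ (q - 1) * (1 - u) ^ (-(1 : ℝ) / 2)) (Ioo 0 1) ∧
    ∫ u in Ioo (0 : ℝ) 1, u ^ (q - 1) * (1 - u) ^ (-(1 : ℝ) / 2) = ProbabilityTheory.beta q (1 / 2) := by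
  have hb : 0 < ProbabilityTheory.beta q (1 / 2) := ProbabilityTheory.beta_pos hq (by norm_num)
  have h1 := ProbabilityTheory.lintegral_betaPDF_eq_one hq (show (0 : ℝ) < 1 / 2 by norm_num)
  rw [ProbabilityTheory.lintegral_betaPDF] at h1
  have h2 : ∀ u ∈ Ioo (0 : ℝ) 1, ENNReal.ofReal (1 / ProbabilityTheory.beta q (1 / 2) *
      u ^ (q - 1) * (1 - u) ^ ((1 : ℝ) / 2 - 1)) =
      ENNReal.ofReal (1 / ProbabilityTheory.beta q (1 / 2)) *
        ENNReal.ofReal (u ^ (q - 1) * (1 - u) ^ (-(1 : ℝ) / 2)) := by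
    intro u hu
    rw [← ENNReal.ofReal_mul (by positivity), mul_assoc]
    congr 3
    norm_num
  rw [setLIntegral_congr_fun measurableSet_Ioo h2, lintegral_const_mul' _ _ ENNReal.ofReal_ne_top] at h1
  have h3 : ∫⁻ u in Ioo (0 : ℝ) 1, ENNReal.ofReal (u ^ (q - 1) * (1 - u) ^ (-(1 : ℝ) / 2)) =
      ENNReal.ofReal (ProbabilityTheory.beta q (1 / 2)) := by
    have h4 : ENNReal.ofReal (ProbabilityTheory.beta q (1 / 2)) *
        ENNReal.ofReal (1 / ProbabilityTheory.beta q (1 / 2)) = 1 := by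
      rw [← ENNReal.ofReal_mul hb.le, mul_one_div_cancel hb.ne', ENNReal.ofReal_one]
    calc ∫⁻ u in Ioo (0 : ℝ) 1, ENNReal.ofReal (u ^ (q - 1) * (1 - u) ^ (-(1 : ℝ) / 2))
        = (ENNReal.ofReal (ProbabilityTheory.beta q (1 / 2)) *
          ENNReal.ofReal (1 / ProbabilityTheory.beta q (1 / 2))) *
          ∫⁻ u in Ioo (0 : ℝ) 1, ENNReal.ofReal (u ^ (q - 1) * (1 - u) ^ (-(1 : ℝ) / 2)) := by
          rw [h4, one_mul]
      _ = ENNReal.ofReal (ProbabilityTheory.beta q (1 / 2)) := by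
          rw [mul_assoc, h1, mul_one]
  have hnn : ∀ u ∈ Ioo (0 : ℝ) 1, 0 ≤ u ^ (q - 1) * (1 - u) ^ (-(1 : ℝ) / 2) := fun u hu =>
    mul_nonneg (Real.rpow_nonneg hu.1.le _) (Real.rpow_nonneg (by linarith [hu.2]) _)
  have hm : Measurable (fun u : ℝ => u ^ (q - 1) * (1 - u) ^ (-(1 : ℝ) / 2)) := by fun_prop
  have hnn' : 0 ≤ᵐ[volume.restrict (Ioo (0 : ℝ) 1)]
      (fun u : ℝ => u ^ (q - 1) * (1 - u) ^ (-(1 : ℝ) / 2)) :=
    ae_restrict_of_forall_mem measurableSet_Ioo hnn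
  constructor
  · refine ⟨hm.aestronglyMeasurable, ?_⟩
    rw [hasFiniteIntegral_iff_ofReal hnn', h3]
    exact ENNReal.ofReal_lt_top
  · rw [integral_eq_lintegral_of_nonneg_ae hnn' hm.aestronglyMeasurable, h3,
      ENNReal.toReal_ofReal hb.le]

/-- the first integral -/
theorem green_integral (q : ℝ) (hq : 1 / 2 ≤ q) :
    IntegrableOn (fun u : ℝ => u ^ (q - 1) * arcosh (u ^ (-(1 : ℝ) / 2))) (Ioo 0 1) ∧
    ∫ u in Ioo (0 : ℝ) 1, u ^ (q - 1) * arcosh (u ^ (-(1 : ℝ) / 2))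
      = 1 / (2 * q) * ProbabilityTheory.beta q (1 / 2) := by
  have hq0 : 0 < q := by linarith
  obtain ⟨hB1, hB2⟩ := beta_half q hq0
  have hge1 : ∀ u ∈ Ioo (0 : ℝ) 1, 1 ≤ u ^ (-(1 : ℝ) / 2) := fun u hu =>
    Real.one_le_rpow_of_pos_of_le_one_of_nonpos hu.1 hu.2.le (by norm_num)
  have hgt1 : ∀ u ∈ Ioo (0 : ℝ) 1, 1 < u ^ (-(1 : ℝ) / 2) := fun u hu =>
    Real.one_lt_rpow_of_pos_of_lt_one_of_neg hu.1 hu.2 (by norm_num)
  have hbound : ∀ u ∈ Ioo (0 : ℝ) 1, arcosh (u ^ (-(1 : ℝ) / 2)) ≤ √2 * u ^ (-(1 : ℝ) / 4) := by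
    intro u hu
    refine (arcosh_le_sqrt (hge1 u hu)).trans (le_of_eq ?_)
    rw [Real.sqrt_mul (by norm_num), Real.sqrt_eq_rpow (u ^ (-(1 : ℝ) / 2)), ← Real.rpow_mul hu.1.le]
    norm_num
  have hcont : ContinuousOn (fun u : ℝ => u ^ (q - 1) * arcosh (u ^ (-(1 : ℝ) / 2))) (Ioo 0 1) := by
    apply ContinuousOn.mul
    · exact continuousOn_id.rpow_const fun u hu => Or.inl hu.1.ne'
    · refine continuousOn_arcosh.comp (continuousOn_id.rpow_const fun u hu => Or.inl hu.1.ne') ?_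
      intro u hu; exact hge1 u hu
  have hI1 : IntegrableOn (fun u : ℝ => u ^ (q - 1) * arcosh (u ^ (-(1 : ℝ) / 2))) (Ioo 0 1) := by
    have hdom : IntegrableOn (fun u : ℝ => √2 * u ^ (q - 5 / 4)) (Ioo 0 1) := by
      have h1 : IntervalIntegrable (fun u : ℝ => u ^ (q - 5 / 4)) volume 0 1 :=
        intervalIntegral.intervalIntegrable_rpow' (by linarith)
      rw [intervalIntegrable_iff_integrableOn_Ioo_of_le zero_le_one] at h1
      exact h1.const_mul _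
    refine hdom.mono' (hcont.aestronglyMeasurable measurableSet_Ioo) ?_
    refine ae_restrict_of_forall_mem measurableSet_Ioo fun u hu => ?_
    rw [Real.norm_eq_abs, abs_of_nonneg (mul_nonneg (Real.rpow_nonneg hu.1.le _)
      (arcosh_nonneg (hge1 u hu)))]
    calc u ^ (q - 1) * arcosh (u ^ (-(1 : ℝ) / 2)) ≤ u ^ (q - 1) * (√2 * u ^ (-(1 : ℝ) / 4)) :=
          mul_le_mul_of_nonneg_left (hbound u hu) (Real.rpow_nonneg hu.1.le _)
      _ = √2 * u ^ (q - 5 / 4) := by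
          rw [show q - 5 / 4 = (q - 1) + (-(1 : ℝ) / 4) by ring, Real.rpow_add hu.1]; ring
  refine ⟨hI1, ?_⟩
  -- FTC
  set H : ℝ → ℝ := fun u => u ^ q * arcosh (u ^ (-(1 : ℝ) / 2)) / q with hH
  have hderiv : ∀ u ∈ Ioo (0 : ℝ) 1, HasDerivAt H
      (u ^ (q - 1) * arcosh (u ^ (-(1 : ℝ) / 2)) -
        1 / (2 * q) * (u ^ (q - 1) * (1 - u) ^ (-(1 : ℝ) / 2))) u := by
    intro u hu
    have hu0 : u ≠ 0 := hu.1.ne'
    have d1 : HasDerivAt (fun u : ℝ => u ^ q) (q * u ^ (q - 1)) u :=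
      Real.hasDerivAt_rpow_const (Or.inl hu0)
    have d2 : HasDerivAt (fun u : ℝ => u ^ (-(1 : ℝ) / 2)) (-(1 : ℝ) / 2 * u ^ (-(1 : ℝ) / 2 - 1)) u :=
      Real.hasDerivAt_rpow_const (Or.inl hu0)
    have d3 : HasDerivAt (fun u : ℝ => arcosh (u ^ (-(1 : ℝ) / 2)))
        ((√((u ^ (-(1 : ℝ) / 2)) ^ 2 - 1))⁻¹ * (-(1 : ℝ) / 2 * u ^ (-(1 : ℝ) / 2 - 1))) u :=
      HasDerivAt.comp (h₂ := arcosh) u (hasDerivAt_arcosh (hgt1 u hu)) d2
    have d4 : HasDerivAt H ((q * u ^ (q - 1) * arcosh (u ^ (-(1 : ℝ) / 2)) + u ^ q *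
        ((√((u ^ (-(1 : ℝ) / 2)) ^ 2 - 1))⁻¹ * (-(1 : ℝ) / 2 * u ^ (-(1 : ℝ) / 2 - 1)))) / q) u :=
      (d1.mul d3).div_const q
    refine d4.congr_deriv ?_
    have e1 : (u ^ (-(1 : ℝ) / 2)) ^ 2 = u⁻¹ := by
      rw [← Real.rpow_natCast, ← Real.rpow_mul hu.1.le]
      norm_num
      rw [Real.rpow_neg_one]
    have h1u : 0 < 1 - u := by linarith [hu.2]
    have e2 : √((u ^ (-(1 : ℝ) / 2)) ^ 2 - 1) = (1 - u) ^ ((1 : ℝ) / 2) * u ^ (-(1 : ℝ) / 2) := by
      rw [e1, Real.sqrt_eq_rpow, ← Real.rpow_neg_one u]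
      rw [show u ^ (-1 : ℝ) - 1 = (1 - u) * u ^ (-1 : ℝ) by
        rw [Real.rpow_neg_one]; field_simp]
      rw [Real.mul_rpow h1u.le (Real.rpow_nonneg hu.1.le _), ← Real.rpow_mul hu.1.le]
      norm_num
    rw [e2]
    have e3 : (1 - u) ^ (-(1 : ℝ) / 2) = ((1 - u) ^ ((1 : ℝ) / 2))⁻¹ := by
      rw [← Real.rpow_neg h1u.le]; norm_num
    have e4 : u ^ (-(1 : ℝ) / 2 - 1) = u ^ (-(1 : ℝ) / 2) * u⁻¹ := by
      rw [← Real.rpow_neg_one u, ← Real.rpow_add hu.1]; norm_num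
    have e5 : u ^ q = u ^ (q - 1) * u := by
      rw [← Real.rpow_add_one hu0]; ring_nf
    rw [e3, e4, e5]
    have p1 : (1 - u) ^ ((1 : ℝ) / 2) ≠ 0 := (Real.rpow_pos_of_pos h1u _).ne'
    have p2 : u ^ (-(1 : ℝ) / 2) ≠ 0 := (Real.rpow_pos_of_pos hu.1 _).ne'
    generalize (1 - u) ^ ((1 : ℝ) / 2) = A at p1 ⊢
    generalize u ^ (-(1 : ℝ) / 2) = B at p2 ⊢
    generalize arcosh B = C
    generalize u ^ (q - 1) = F
    field_simp
    ring
  have hint : IntervalIntegrable (fun u : ℝ => u ^ (q - 1) * arcosh (u ^ (-(1 : ℝ) / 2)) -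
        1 / (2 * q) * (u ^ (q - 1) * (1 - u) ^ (-(1 : ℝ) / 2))) volume 0 1 := by
    rw [intervalIntegrable_iff_integrableOn_Ioo_of_le zero_le_one]
    exact hI1.sub (hB1.const_mul _)
  have ht0 : Tendsto H (𝓝[>] 0) (𝓝 0) := by
    have hup : ∀ᶠ u in 𝓝[>] (0 : ℝ), H u ≤ √2 * u ^ (q - 1 / 4) / q := by
      filter_upwards [Ioo_mem_nhdsGT (zero_lt_one)] with u hu
      have := hbound u hu
      rw [hH]
      simp only
      apply div_le_div_of_nonneg_right _ hq0.le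
      calc u ^ q * arcosh (u ^ (-(1 : ℝ) / 2)) ≤ u ^ q * (√2 * u ^ (-(1 : ℝ) / 4)) :=
            mul_le_mul_of_nonneg_left this (Real.rpow_nonneg hu.1.le _)
        _ = √2 * u ^ (q - 1 / 4) := by
            rw [show q - 1 / 4 = q + (-(1 : ℝ) / 4) by ring, Real.rpow_add hu.1]; ring
    have hlo : ∀ᶠ u in 𝓝[>] (0 : ℝ), 0 ≤ H u := by
      filter_upwards [Ioo_mem_nhdsGT (zero_lt_one)] with u hu
      exact div_nonneg (mul_nonneg (Real.rpow_nonneg hu.1.le _) (arcosh_nonneg (hge1 u hu))) hq0.le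
    have hlim : Tendsto (fun u : ℝ => √2 * u ^ (q - 1 / 4) / q) (𝓝[>] 0) (𝓝 0) := by
      have hc : ContinuousAt (fun u : ℝ => √2 * u ^ (q - 1 / 4) / q) 0 := by
        have : ContinuousAt (fun u : ℝ => u ^ (q - 1 / 4)) 0 :=
          Real.continuousAt_rpow_const _ _ (Or.inr (by linarith))
        exact (this.const_mul _).div_const _
      have h0 : Tendsto (fun u : ℝ => √2 * u ^ (q - 1 / 4) / q) (𝓝 0)
        (𝓝 (√2 * (0 : ℝ) ^ (q - 1 / 4) / q)) := hc.tendsto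
      rw [Real.zero_rpow (by linarith : q - 1 / 4 ≠ 0), mul_zero, zero_div] at h0
      exact h0.mono_left nhdsWithin_le_nhds
    exact tendsto_of_tendsto_of_tendsto_of_le_of_le' tendsto_const_nhds hlim hlo hup
  have ht1 : Tendsto H (𝓝[<] 1) (𝓝 0) := by
    have hc : Tendsto (fun u : ℝ => arcosh (u ^ (-(1 : ℝ) / 2))) (𝓝[<] 1) (𝓝 (arcosh 1)) := by
      have h1 : Tendsto (fun u : ℝ => u ^ (-(1 : ℝ) / 2)) (𝓝[<] 1) (𝓝[≥] 1) := by
        rw [tendsto_nhdsWithin_iff]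
        constructor
        · have : ContinuousAt (fun u : ℝ => u ^ (-(1 : ℝ) / 2)) 1 :=
            Real.continuousAt_rpow_const _ _ (Or.inl one_ne_zero)
          have h2 := this.tendsto
          simp only [Real.one_rpow] at h2
          exact h2.mono_left nhdsWithin_le_nhds
        · filter_upwards [Ioo_mem_nhdsLT (zero_lt_one)] with u hu
          exact hge1 u hu
      exact (continuousOn_arcosh 1 (by simp)).tendsto.comp h1
    have hc2 : Tendsto (fun u : ℝ => u ^ q) (𝓝[<] 1) (𝓝 1) := by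
      have : ContinuousAt (fun u : ℝ => u ^ q) 1 :=
        Real.continuousAt_rpow_const _ _ (Or.inl one_ne_zero)
      have h2 := this.tendsto
      simp only [Real.one_rpow] at h2
      exact h2.mono_left nhdsWithin_le_nhds
    have := (hc2.mul hc).div_const q
    simpa [hH, arcosh_zero] using this
  have hftc := intervalIntegral.integral_eq_sub_of_hasDerivAt_of_tendsto zero_lt_one hderiv hint ht0 ht1
  rw [intervalIntegral.integral_of_le zero_le_one, integral_Ioc_eq_integral_Ioo,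
    integral_sub hI1 (hB1.const_mul _), integral_const_mul, hB2, sub_zero] at hftc
  linarith

/-- the log integral -/
theorem log_moment (q : ℝ) (hq : 1 / 2 ≤ q) :
    IntegrableOn (fun u : ℝ => u ^ (q - 1) * (-(1 / 2) * Real.log u)) (Ioo 0 1) ∧
    ∫ u in Ioo (0 : ℝ) 1, u ^ (q - 1) * (-(1 / 2) * Real.log u) = 1 / (2 * q ^ 2) := by
  have hq0 : 0 < q := by linarith
  have hbound : ∀ u ∈ Ioo (0 : ℝ) 1, -Real.log u ≤ 4 * u ^ (-(1 : ℝ) / 4) := by
    intro u hu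
    have h1 : Real.log (u ^ (-(1 : ℝ) / 4)) = -(1 : ℝ) / 4 * Real.log u := Real.log_rpow hu.1 _
    have h2 : Real.log (u ^ (-(1 : ℝ) / 4)) ≤ u ^ (-(1 : ℝ) / 4) - 1 :=
      Real.log_le_sub_one_of_pos (Real.rpow_pos_of_pos hu.1 _)
    linarith
  have hcont : ContinuousOn (fun u : ℝ => u ^ (q - 1) * (-(1 / 2) * Real.log u)) (Ioo 0 1) := by
    apply ContinuousOn.mul
    · exact continuousOn_id.rpow_const fun u hu => Or.inl hu.1.ne'
    · exact continuousOn_const.mul (continuousOn_id.log fun u hu => hu.1.ne')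
  have hI1 : IntegrableOn (fun u : ℝ => u ^ (q - 1) * (-(1 / 2) * Real.log u)) (Ioo 0 1) := by
    have hdom : IntegrableOn (fun u : ℝ => 2 * u ^ (q - 5 / 4)) (Ioo 0 1) := by
      have h1 : IntervalIntegrable (fun u : ℝ => u ^ (q - 5 / 4)) volume 0 1 :=
        intervalIntegral.intervalIntegrable_rpow' (by linarith)
      rw [intervalIntegrable_iff_integrableOn_Ioo_of_le zero_le_one] at h1
      exact h1.const_mul _
    refine hdom.mono' (hcont.aestronglyMeasurable measurableSet_Ioo) ?_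
    refine ae_restrict_of_forall_mem measurableSet_Ioo fun u hu => ?_
    have hlog : Real.log u ≤ 0 := Real.log_nonpos hu.1.le hu.2.le
    rw [Real.norm_eq_abs, abs_of_nonneg (mul_nonneg (Real.rpow_nonneg hu.1.le _)
      (by linarith))]
    calc u ^ (q - 1) * (-(1 / 2) * Real.log u) ≤ u ^ (q - 1) * (2 * u ^ (-(1 : ℝ) / 4)) :=
          mul_le_mul_of_nonneg_left (by linarith [hbound u hu]) (Real.rpow_nonneg hu.1.le _)
      _ = 2 * u ^ (q - 5 / 4) := by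
          rw [show q - 5 / 4 = (q - 1) + (-(1 : ℝ) / 4) by ring, Real.rpow_add hu.1]; ring
  refine ⟨hI1, ?_⟩
  set H : ℝ → ℝ := fun u => -(1 / (2 * q)) * (Real.log u * u ^ q) + 1 / (2 * q ^ 2) * u ^ q with hH
  have hderiv : ∀ u ∈ Ioo (0 : ℝ) 1, HasDerivAt H (u ^ (q - 1) * (-(1 / 2) * Real.log u)) u := by
    intro u hu
    have hu0 : u ≠ 0 := hu.1.ne'
    have d1 : HasDerivAt (fun u : ℝ => u ^ q) (q * u ^ (q - 1)) u :=
      Real.hasDerivAt_rpow_const (Or.inl hu0)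
    have d2 := Real.hasDerivAt_log hu0
    have d3 : HasDerivAt H (-(1 / (2 * q)) * (u⁻¹ * u ^ q + Real.log u * (q * u ^ (q - 1))) +
        1 / (2 * q ^ 2) * (q * u ^ (q - 1))) u :=
      ((d2.mul d1).const_mul (-(1 / (2 * q)))).add (d1.const_mul (1 / (2 * q ^ 2)))
    refine d3.congr_deriv ?_
    have e5 : u ^ q = u ^ (q - 1) * u := by
      rw [← Real.rpow_add_one hu0]; ring_nf
    rw [e5]
    field_simp
    ring
  have hint : IntervalIntegrable (fun u : ℝ => u ^ (q - 1) * (-(1 / 2) * Real.log u)) volume 0 1 := by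
    rw [intervalIntegrable_iff_integrableOn_Ioo_of_le zero_le_one]
    exact hI1
  have ht0 : Tendsto H (𝓝[>] 0) (𝓝 0) := by
    have h1 := (tendsto_log_mul_rpow_nhdsGT_zero hq0).const_mul (-(1 / (2 * q)))
    have h2 : Tendsto (fun u : ℝ => 1 / (2 * q ^ 2) * u ^ q) (𝓝[>] 0) (𝓝 0) := by
      have hc : ContinuousAt (fun u : ℝ => 1 / (2 * q ^ 2) * u ^ q) 0 :=
        (Real.continuousAt_rpow_const _ _ (Or.inr hq0.le)).const_mul _
      have h0 : Tendsto (fun u : ℝ => 1 / (2 * q ^ 2) * u ^ q) (𝓝 0)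
        (𝓝 (1 / (2 * q ^ 2) * (0 : ℝ) ^ q)) := hc.tendsto
      rw [Real.zero_rpow hq0.ne', mul_zero] at h0
      exact h0.mono_left nhdsWithin_le_nhds
    have := h1.add h2
    simpa [hH] using this
  have ht1 : Tendsto H (𝓝[<] 1) (𝓝 (1 / (2 * q ^ 2))) := by
    have hc : ContinuousAt H 1 := by
      have c1 : ContinuousAt (fun u : ℝ => u ^ q) 1 :=
        Real.continuousAt_rpow_const _ _ (Or.inl one_ne_zero)
      have c2 : ContinuousAt Real.log 1 := Real.continuousAt_log one_ne_zero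
      exact ((c2.mul c1).const_mul _).add (c1.const_mul _)
    have h0 := hc.tendsto
    simp only [hH, Real.log_one, mul_zero, Real.one_rpow, mul_one, zero_add] at h0
    exact h0.mono_left nhdsWithin_le_nhds
  have hftc := intervalIntegral.integral_eq_sub_of_hasDerivAt_of_tendsto zero_lt_one hderiv hint ht0 ht1
  rw [intervalIntegral.integral_of_le zero_le_one, integral_Ioc_eq_integral_Ioo, sub_zero] at hftc
  exact hftc

end Pool.Agent.LibWidom
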