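import Mathlib
import Pool.Agent.LibWidom.Integrals

set_option autoImplicit false

namespace Pool.Agent.LibWidom

open MeasureTheory Real Set Filter Topology

theorem G_eq_zero {y : ℝ} (h : |y| ≤ 1) : G y = 0 := by
  unfold G; rw [max_eq_left h, arcosh_zero]

theorem G_eq {y : ℝ} (h : 1 ≤ y) : G y = arcosh y := by
  unfold G; rw [abs_of_nonneg (by linarith), max_eq_right h]

noncomputable def J (q : ℝ) : ℝ := 1 / (2 * q) * ProbabilityTheory.beta q (1 / 2)

theorem J_pos (q : ℝ) (hq : 1 / 2 ≤ q) : 0 < J q := by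
  unfold J
  have : 0 < ProbabilityTheory.beta q (1 / 2) := ProbabilityTheory.beta_pos (by linarith) (by norm_num)
  positivity

/-- total mixture integral -/
theorem lintegral_mixture_one (q : ℝ) (hq : 1 / 2 ≤ q) :
    ∫⁻ u in Ioi (0 : ℝ), ENNReal.ofReal (u ^ (q - 1) * G (u ^ (-(1 : ℝ) / 2))) =
      ENNReal.ofReal (J q) := by
  obtain ⟨h1, h2⟩ := green_integral q hq
  have hsplit : Ioi (0 : ℝ) = Ioo 0 1 ∪ Ici 1 := (Ioo_union_Ici_eq_Ioi zero_lt_one).symm
  have hdisj : Disjoint (Ioo (0 : ℝ) 1) (Ici 1) := by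
    rw [Set.disjoint_left]; intro x hx hx'
    exact absurd hx.2 (not_lt.mpr hx')
  rw [hsplit, lintegral_union measurableSet_Ici hdisj]
  have hz : ∫⁻ u in Ici (1 : ℝ), ENNReal.ofReal (u ^ (q - 1) * G (u ^ (-(1 : ℝ) / 2))) = 0 := by
    rw [setLIntegral_congr_fun (g := fun _ => (0 : ENNReal)) measurableSet_Ici]
    · simp
    · intro u hu
      have hu1 : (1 : ℝ) ≤ u := hu
      have : |u ^ (-(1 : ℝ) / 2)| ≤ 1 := by
        rw [abs_of_nonneg (by positivity)]
        exact Real.rpow_le_one_of_one_le_of_nonpos hu1 (by norm_num)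
      simp only
      rw [G_eq_zero this]; simp
  rw [hz, add_zero]
  have hge1 : ∀ u ∈ Ioo (0 : ℝ) 1, 1 ≤ u ^ (-(1 : ℝ) / 2) := fun u hu =>
    Real.one_le_rpow_of_pos_of_le_one_of_nonpos hu.1 hu.2.le (by norm_num)
  rw [setLIntegral_congr_fun (g := fun u => ENNReal.ofReal (u ^ (q - 1) * arcosh (u ^ (-(1 : ℝ) / 2))))
    measurableSet_Ioo (fun u hu => by simp only; rw [G_eq (hge1 u hu)])]
  rw [← ofReal_integral_eq_lintegral_ofReal h1
    (ae_restrict_of_forall_mem measurableSet_Ioo fun u hu =>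
      mul_nonneg (Real.rpow_nonneg hu.1.le _) (arcosh_nonneg (hge1 u hu))), h2]
  rfl

theorem mixture_measurable (q : ℝ) :
    Measurable fun u : ℝ => ENNReal.ofReal (u ^ (q - 1) * G (u ^ (-(1 : ℝ) / 2))) := by
  have h1 := G_continuous.measurable
  fun_prop

/-- scaled version -/
theorem lintegral_mixture (q : ℝ) (hq : 1 / 2 ≤ q) (t : ℝ) :
    ∫⁻ v in Ioo (0 : ℝ) 1, ENNReal.ofReal (v ^ (q - 1) * G (t * v ^ (-(1 : ℝ) / 2))) ≤
      ENNReal.ofReal (|t| ^ (2 * q) * J q) := by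
  have hq0 : 0 < q := by linarith
  rcases eq_or_ne t 0 with ht | ht
  · subst ht
    have : ∀ v : ℝ, ENNReal.ofReal (v ^ (q - 1) * G (0 * v ^ (-(1 : ℝ) / 2))) = 0 := by
      intro v; rw [zero_mul, G_eq_zero (by simp)]; simp
    simp_rw [this]; simp
  have htp : 0 < |t| := abs_pos.mpr ht
  set c : ℝ := (|t| ^ 2)⁻¹ with hc
  have hcpos : 0 < c := by positivity
  set f : ℝ → ENNReal := (Ioi (0 : ℝ)).indicator
    (fun u => ENNReal.ofReal (u ^ (q - 1) * G (u ^ (-(1 : ℝ) / 2)))) with hf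
  have hfm : Measurable f := (mixture_measurable q).indicator measurableSet_Ioi
  have hGabs : ∀ y : ℝ, G y = G |y| := by intro y; unfold G; rw [abs_abs]
  have hpt : ∀ v ∈ Ioo (0 : ℝ) 1, ENNReal.ofReal (v ^ (q - 1) * G (t * v ^ (-(1 : ℝ) / 2))) =
      ENNReal.ofReal (|t| ^ (2 * (q - 1))) * f (c * v) := by
    intro v hv
    have hcv : 0 < c * v := mul_pos hcpos hv.1
    rw [hf, Set.indicator_of_mem (by exact hcv), ← ENNReal.ofReal_mul (by positivity)]
    congr 1
    have e1 : (c * v) ^ (q - 1) = |t| ^ (-(2 * (q - 1))) * v ^ (q - 1) := by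
      rw [Real.mul_rpow hcpos.le hv.1.le]
      congr 1
      rw [hc, Real.inv_rpow (by positivity), ← Real.rpow_natCast, ← Real.rpow_mul htp.le,
        Real.rpow_neg htp.le]
      norm_num
    have e2 : (c * v) ^ (-(1 : ℝ) / 2) = |t| * v ^ (-(1 : ℝ) / 2) := by
      rw [Real.mul_rpow hcpos.le hv.1.le]
      congr 1
      rw [hc, Real.inv_rpow (by positivity), ← Real.rpow_natCast, ← Real.rpow_mul htp.le,
        ← Real.rpow_neg htp.le]
      norm_num
    rw [e1, e2]
    have e3 : G (t * v ^ (-(1 : ℝ) / 2)) = G (|t| * v ^ (-(1 : ℝ) / 2)) := by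
      rw [hGabs, abs_mul, abs_of_pos (Real.rpow_pos_of_pos hv.1 _)]
    rw [e3]
    have e4 : |t| ^ (2 * (q - 1)) * |t| ^ (-(2 * (q - 1))) = 1 := by
      rw [← Real.rpow_add htp]; simp
    calc v ^ (q - 1) * G (|t| * v ^ (-(1 : ℝ) / 2))
        = (|t| ^ (2 * (q - 1)) * |t| ^ (-(2 * (q - 1)))) * (v ^ (q - 1) * G (|t| * v ^ (-(1 : ℝ) / 2))) := by
          rw [e4, one_mul]
      _ = _ := by ring
  rw [setLIntegral_congr_fun measurableSet_Ioo hpt, lintegral_const_mul' _ _ ENNReal.ofReal_ne_top]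
  have hscale : ∫⁻ v, f (c * v) = ENNReal.ofReal |c⁻¹| * ∫⁻ u, f u := by
    rw [← lintegral_map hfm (measurable_const_mul c), Real.map_volume_mul_left hcpos.ne',
      lintegral_smul_measure, smul_eq_mul]
  calc ENNReal.ofReal (|t| ^ (2 * (q - 1))) * ∫⁻ v in Ioo (0 : ℝ) 1, f (c * v)
      ≤ ENNReal.ofReal (|t| ^ (2 * (q - 1))) * ∫⁻ v, f (c * v) := by
        gcongr; exact Measure.restrict_le_self
    _ = ENNReal.ofReal (|t| ^ (2 * (q - 1))) * (ENNReal.ofReal |c⁻¹| * ENNReal.ofReal (J q)) := by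
        rw [hscale, hf, lintegral_indicator measurableSet_Ioi, lintegral_mixture_one q hq]
    _ = ENNReal.ofReal (|t| ^ (2 * q) * J q) := by
        rw [← ENNReal.ofReal_mul (by positivity), ← ENNReal.ofReal_mul (by positivity)]
        congr 1
        rw [hc, inv_inv, abs_of_pos (show 0 < |t| ^ 2 by positivity), ← mul_assoc,
          ← Real.rpow_natCast, ← Real.rpow_add htp]
        congr 2
        push_cast; ring

/-- The main inequality -/
theorem widom_main (K : Set ℝ) (hK : IsCompact K) (D : ℝ) (hDK : Metric.diam K < D)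
    (μ : Measure ℝ) [IsProbabilityMeasure μ] (hμK : μ Kᶜ = 0) (hfin : En D μ < ⊤)
    (hmin : ∀ ν : Measure ℝ, IsProbabilityMeasure ν → ν Kᶜ = 0 → En D μ ≤ En D ν)
    (p : ℝ) (hp : 1 ≤ p) (n : ℕ) (hn : 1 ≤ n) (P : Polynomial ℝ) (hP : P.Monic)
    (hPn : P.natDegree = n) :
    (2 : ℝ) ^ p / Real.sqrt Real.pi * Real.Gamma ((p + 1) / 2) / Real.Gamma (p / 2 + 1)
        * (D * Real.exp (-(En D μ).toReal)) ^ ((n : ℝ) * p)
      ≤ ∫ x, |P.eval x| ^ p ∂μ := by
  have hD : 0 < D := lt_of_le_of_lt Metric.diam_nonneg hDK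
  have hpot : ∀ a, pot D μ a ≤ En D μ := pot_le K hK D hD μ hμK hfin hmin
  set E := En D μ with hE
  set q : ℝ := p / 2 with hq
  have hq2 : 1 / 2 ≤ q := by rw [hq]; linarith
  have hq0 : 0 < q := by linarith
  set c : ℝ := D * Real.exp (-E.toReal) with hc
  have hcpos : 0 < c := by positivity
  have hlogc : Real.log c = Real.log D - E.toReal := by
    rw [hc, Real.log_mul hD.ne' (Real.exp_pos _).ne', Real.log_exp]; ring
  set b : ℝ := 2 * c ^ n with hb
  have hbpos : 0 < b := by positivity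
  have hK' : ∀ᵐ x ∂μ, x ∈ K := by rw [ae_iff]; exact hμK
  have hintc : ∀ f : ℝ → ℝ, Continuous f → Integrable f μ := by
    intro f hf
    have h1 : IntegrableOn f K μ := hf.continuousOn.integrableOn_compact hK
    rwa [IntegrableOn, Measure.restrict_eq_self_of_ae_mem hK'] at h1
  -- step 1: lower bound for inner integrals
  have hstep1 : ∀ v ∈ Ioo (0 : ℝ) 1, ENNReal.ofReal (v ^ (q - 1) * (-(1 / 2) * Real.log v)) ≤
      ∫⁻ x, ENNReal.ofReal (v ^ (q - 1) * G (P.eval x / b * v ^ (-(1 : ℝ) / 2))) ∂μ := by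
    intro v hv
    have hs : 0 < b * v ^ ((1 : ℝ) / 2) := mul_pos hbpos (Real.rpow_pos_of_pos hv.1 _)
    obtain ⟨h1, h2⟩ := integral_G_ge K hK D hD μ hμK E hfin hpot P hP n hn hPn _ hs
    have h3 : (n : ℝ) * (Real.log D - E.toReal) - Real.log (b * v ^ ((1 : ℝ) / 2)) + Real.log 2
        = -(1 / 2) * Real.log v := by
      rw [← hlogc, Real.log_mul hbpos.ne' (Real.rpow_pos_of_pos hv.1 _).ne', Real.log_rpow hv.1, hb,
        Real.log_mul two_ne_zero (by positivity), Real.log_pow]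
      ring
    rw [h3] at h2
    have h4 : ∀ x, P.eval x / (b * v ^ ((1 : ℝ) / 2)) = P.eval x / b * v ^ (-(1 : ℝ) / 2) := by
      intro x
      rw [show -(1 : ℝ) / 2 = -((1 : ℝ) / 2) by ring, Real.rpow_neg hv.1.le]
      field_simp
    simp_rw [h4] at h1 h2
    have h5 : ∫⁻ x, ENNReal.ofReal (v ^ (q - 1) * G (P.eval x / b * v ^ (-(1 : ℝ) / 2))) ∂μ =
        ENNReal.ofReal (v ^ (q - 1) * ∫ x, G (P.eval x / b * v ^ (-(1 : ℝ) / 2)) ∂μ) := by
      rw [← integral_const_mul, ofReal_integral_eq_lintegral_ofReal (h1.const_mul _)]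
      exact Eventually.of_forall fun x => mul_nonneg (Real.rpow_nonneg hv.1.le _) (G_nonneg _)
    rw [h5]
    exact ENNReal.ofReal_le_ofReal (mul_le_mul_of_nonneg_left h2 (Real.rpow_nonneg hv.1.le _))
  -- step 2: Tonelli
  have hmeas : Measurable (Function.uncurry fun (v x : ℝ) =>
      ENNReal.ofReal (v ^ (q - 1) * G (P.eval x / b * v ^ (-(1 : ℝ) / 2)))) := by
    have h1 := G_continuous.measurable
    have h2 : Measurable fun x : ℝ => P.eval x := P.continuous.measurable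
    unfold Function.uncurry
    have h3 : Measurable fun z : ℝ × ℝ => P.eval z.2 := h2.comp measurable_snd
    fun_prop
  obtain ⟨hL1, hL2⟩ := log_moment q hq2
  have htot : ENNReal.ofReal (1 / (2 * q ^ 2)) ≤
      ENNReal.ofReal (J q * ∫ x, |P.eval x / b| ^ p ∂μ) := by
    calc ENNReal.ofReal (1 / (2 * q ^ 2))
        = ∫⁻ v in Ioo (0 : ℝ) 1, ENNReal.ofReal (v ^ (q - 1) * (-(1 / 2) * Real.log v)) := by
          rw [← hL2, ofReal_integral_eq_lintegral_ofReal hL1]
          refine ae_restrict_of_forall_mem measurableSet_Ioo fun v hv => ?_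
          have : Real.log v ≤ 0 := Real.log_nonpos hv.1.le hv.2.le
          exact mul_nonneg (Real.rpow_nonneg hv.1.le _) (by linarith)
      _ ≤ ∫⁻ v in Ioo (0 : ℝ) 1, ∫⁻ x,
            ENNReal.ofReal (v ^ (q - 1) * G (P.eval x / b * v ^ (-(1 : ℝ) / 2))) ∂μ :=
          setLIntegral_mono' measurableSet_Ioo hstep1
      _ = ∫⁻ x, (∫⁻ v in Ioo (0 : ℝ) 1,
            ENNReal.ofReal (v ^ (q - 1) * G (P.eval x / b * v ^ (-(1 : ℝ) / 2)))) ∂μ :=
          lintegral_lintegral_swap hmeas.aemeasurable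
      _ ≤ ∫⁻ x, ENNReal.ofReal (|P.eval x / b| ^ (2 * q) * J q) ∂μ :=
          lintegral_mono fun x => lintegral_mixture q hq2 _
      _ = ENNReal.ofReal (J q * ∫ x, |P.eval x / b| ^ p ∂μ) := by
          have h2q : 2 * q = p := by rw [hq]; ring
          rw [h2q, ← integral_const_mul]
          have hcont : Continuous fun x => J q * |P.eval x / b| ^ p := by
            apply Continuous.mul continuous_const
            apply Continuous.rpow_const (by fun_prop)
            intro x; right; linarith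
          rw [ofReal_integral_eq_lintegral_ofReal (hintc _ hcont)]
          · refine lintegral_congr fun x => ?_
            rw [mul_comm]
          · exact Eventually.of_forall fun x => mul_nonneg (J_pos q hq2).le (by positivity)
  have hreal : 1 / (2 * q ^ 2) ≤ J q * ∫ x, |P.eval x / b| ^ p ∂μ := by
    have hnn : 0 ≤ J q * ∫ x, |P.eval x / b| ^ p ∂μ :=
      mul_nonneg (J_pos q hq2).le (integral_nonneg fun x => by positivity)
    exact (ENNReal.ofReal_le_ofReal_iff hnn).mp htot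
  have hscale : ∫ x, |P.eval x / b| ^ p ∂μ = (b ^ p)⁻¹ * ∫ x, |P.eval x| ^ p ∂μ := by
    rw [← integral_const_mul]
    refine integral_congr_ae (Eventually.of_forall fun x => ?_)
    simp only
    rw [abs_div, abs_of_pos hbpos, Real.div_rpow (abs_nonneg _) hbpos.le]
    field_simp
  rw [hscale] at hreal
  have hbp : 0 < b ^ p := Real.rpow_pos_of_pos hbpos p
  have hbeq : b ^ p = 2 ^ p * c ^ ((n : ℝ) * p) := by
    rw [hb, Real.mul_rpow (by norm_num) (by positivity), ← Real.rpow_natCast, ← Real.rpow_mul hcpos.le]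
  have hG1 : 0 < Real.Gamma q := Real.Gamma_pos_of_pos hq0
  have hG2 : 0 < Real.Gamma (q + 1 / 2) := Real.Gamma_pos_of_pos (by linarith)
  have hJ : J q = 1 / (2 * q) * (Real.Gamma q * √π / Real.Gamma (q + 1 / 2)) := by
    unfold J ProbabilityTheory.beta; rw [Real.Gamma_one_half_eq]
  have hGq : Real.Gamma (p / 2 + 1) = q * Real.Gamma q := by
    rw [← hq]; exact Real.Gamma_add_one hq0.ne'
  have hGp : Real.Gamma ((p + 1) / 2) = Real.Gamma (q + 1 / 2) := by
    congr 1; rw [hq]; ring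
  have hspi : 0 < √π := Real.sqrt_pos.mpr Real.pi_pos
  rw [hGq, hGp]
  have e : (2 : ℝ) ^ p / √π * Real.Gamma (q + 1 / 2) / (q * Real.Gamma q) * c ^ ((n : ℝ) * p)
      = b ^ p * (1 / (2 * q ^ 2) / J q) := by
    rw [hbeq, hJ]; field_simp
  rw [e]
  have hJp := J_pos q hq2
  calc b ^ p * (1 / (2 * q ^ 2) / J q)
      ≤ b ^ p * ((J q * ((b ^ p)⁻¹ * ∫ x, |P.eval x| ^ p ∂μ)) / J q) := by
        gcongr
    _ = ∫ x, |P.eval x| ^ p ∂μ := by field_simp

end Pool.Agent.LibWidom
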